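import Pool.Agent.H58.T1.S1

/-!
# T1: FUC, the levels which are not full
-/

set_option autoImplicit false

namespace Pool.T1

private theorem fuc_pow {Q : ℕ} {N : ℕ → ℕ} (h : ∀ m, N (m + 1) ≤ Q * N m) (n k : ℕ) :
    N (n + k) ≤ Q ^ k * N n := by
  induction k with
  | zero => simp
  | succ k ih =>
    calc N (n + (k + 1)) ≤ Q * N (n + k) := h (n + k)
      _ ≤ Q * (Q ^ k * N n) := Nat.mul_le_mul_left _ ih
      _ = Q ^ (k + 1) * N n := by ring

theorem fuc : FUCStmt := by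
  intro Q c s hQ hs
  obtain ⟨d, hd⟩ : ∃ d : ℕ, c * Q < 2 ^ d := ⟨c * Q, Nat.lt_two_pow_self⟩
  refine ⟨d * s, ?_⟩
  intro N F M A hA h1 h2 h3 h4 h5 m hm
  by_contra hF
  have h6 : ∀ j n : ℕ, F n → F (n + j * s) := by
    intro j
    induction j with
    | zero => intro n h; simpa using h
    | succ j ih =>
      intro n h
      have := h5 _ (ih n h)
      rwa [show n + j * s + s = n + (j + 1) * s by ring] at this
  have h7 : ∀ j n : ℕ, n + j * s = m → 2 ^ j * N m ≤ Q ^ (j * s) * N n := by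
    intro j
    induction j with
    | zero => intro n h; simp at h; simp [h]
    | succ j ih =>
      intro n h
      have e1 : (n + s) + j * s = m := by rw [← h]; ring
      have h8 := ih (n + s) e1
      have h9 : ¬ F (n + s) := fun h10 => hF (e1 ▸ h6 j _ h10)
      obtain ⟨s', hs'⟩ : ∃ s', s = s' + 1 := ⟨s - 1, by omega⟩
      have h10 : 2 * N (n + s) ≤ Q ^ s * N n := by
        have e2 : n + s = (n + s') + 1 := by omega
        rw [e2] at h9 ⊢
        calc 2 * N (n + s' + 1) ≤ Q * N (n + s') := h4 _ h9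
          _ ≤ Q * (Q ^ s' * N n) := Nat.mul_le_mul_left _ (fuc_pow h3 n s')
          _ = Q ^ s * N n := by rw [hs']; ring
      calc 2 ^ (j + 1) * N m = 2 * (2 ^ j * N m) := by ring
        _ ≤ 2 * (Q ^ (j * s) * N (n + s)) := Nat.mul_le_mul_left _ h8
        _ = Q ^ (j * s) * (2 * N (n + s)) := by ring
        _ ≤ Q ^ (j * s) * (Q ^ s * N n) := Nat.mul_le_mul_left _ h10
        _ = Q ^ ((j + 1) * s) * N n := by rw [Nat.add_mul, Nat.one_mul, pow_add]; ring
  obtain ⟨n, hn⟩ : ∃ n, n + d * s = m := ⟨m - d * s, by omega⟩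
  have hnM : M ≤ n := by omega
  have hmM : M ≤ m := by omega
  have a1 := h7 d n hn
  have a2 := h2 n hnM
  have a3 := h1 m hmM
  have a4 : 2 ^ d * Q ^ m ≤ c * Q * Q ^ m := by
    calc 2 ^ d * Q ^ m ≤ 2 ^ d * (c * A * N m) := Nat.mul_le_mul_left _ a3
      _ = c * A * (2 ^ d * N m) := by ring
      _ ≤ c * A * (Q ^ (d * s) * N n) := Nat.mul_le_mul_left _ a1
      _ = c * Q ^ (d * s) * (A * N n) := by ring
      _ ≤ c * Q ^ (d * s) * Q ^ (n + 1) := Nat.mul_le_mul_left _ a2
      _ = c * Q * Q ^ m := by rw [← hn, pow_add, pow_add]; ring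
  have a5 : 0 < Q ^ m := Nat.pow_pos (by omega)
  have a6 := Nat.le_of_mul_le_mul_right a4 a5
  omega

end Pool.T1
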