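import Pool.Agent.H41.T1.S5

/-!
# T1: PRDK, the norm of a product of different primes
-/

set_option autoImplicit false

namespace Pool.T1

open IsDedekindDomain

theorem prdk : PRDKStmt := by
  intro R _ _ T
  classical
  induction T using Finset.induction_on with
  | empty =>
    rw [Finset.prod_empty, Finset.prod_empty, Ideal.one_eq_top]
    have : Subsingleton (R ⧸ (⊤ : Ideal R)) := Ideal.Quotient.subsingleton_iff.2 rfl
    exact Nat.card_unique
  | insert P T hP ih =>
    rw [Finset.prod_insert hP, Finset.prod_insert hP]
    have h1 : IsCoprime P.asIdeal (∏ P ∈ T, P.asIdeal) := by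
      refine IsCoprime.prod_right fun P' hP' => ?_
      have h2 : P.asIdeal ≠ P'.asIdeal := fun h => hP (HeightOneSpectrum.ext h ▸ hP')
      have := P.isMaximal
      have := P'.isMaximal
      exact Ideal.isCoprime_of_isMaximal h2
    have h3 := cardQuot_mul_of_coprime h1
    rw [Submodule.cardQuot_apply, Submodule.cardQuot_apply, Submodule.cardQuot_apply] at h3
    rw [h3, ih]
    rfl

end Pool.T1
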