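import Pool.Agent.H14.T1.S3

/-!
# T1: the row TRF (transfer of forms by the trace)
-/

set_option autoImplicit false

namespace Pool.T1

open Matrix

section

variable {k K : Type} [Field k] [Field K] [Algebra k K] {n N : ℕ}

lemma lmm_mulVec (ω : Module.Basis (Fin n) k K) (g : Matrix (Fin N) (Fin N) K)
    (z : Fin N → K) : lmm ω g *ᵥ cv ω z = cv ω (g *ᵥ z) := by
  ext ⟨i, a⟩
  rw [Matrix.mulVec, dotProduct, Fintype.sum_prod_type]
  have h1 : ∀ j : Fin N, ∑ b : Fin n, lmm ω g (i, a) (j, b) * cv ω z (j, b) =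
      ω.repr (g i j * z j) a := by
    intro j
    have h2 := Algebra.leftMulMatrix_mulVec_repr ω (g i j) (z j)
    have h3 := congrFun h2 a
    rw [← h3]
    rfl
  rw [Finset.sum_congr rfl (fun j _ => h1 j)]
  have h4 : cv ω (g *ᵥ z) (i, a) = ω.repr (∑ j, g i j * z j) a := rfl
  rw [h4, map_sum, Finsupp.finsetSum_apply]

lemma lmm_mul (ω : Module.Basis (Fin n) k K) (g g' : Matrix (Fin N) (Fin N) K) :
    lmm ω (g * g') = lmm ω g * lmm ω g' := by
  ext ⟨i, a⟩ ⟨j, b⟩
  rw [Matrix.mul_apply, Fintype.sum_prod_type]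
  have h1 : lmm ω (g * g') (i, a) (j, b) =
      Algebra.leftMulMatrix ω (∑ l, g i l * g' l j) a b := rfl
  rw [h1, map_sum, Matrix.sum_apply]
  apply Finset.sum_congr rfl
  intro l _
  rw [map_mul, Matrix.mul_apply]
  rfl

lemma cv_surj (ω : Module.Basis (Fin n) k K) (v : Fin N × Fin n → k) :
    ∃ z : Fin N → K, cv ω z = v := by
  refine ⟨fun i => ω.equivFun.symm fun a => v (i, a), ?_⟩
  ext ⟨i, a⟩
  change ω.equivFun (ω.equivFun.symm fun a => v (i, a)) a = v (i, a)
  rw [LinearEquiv.apply_symm_apply]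

lemma trm_apply (ω : Module.Basis (Fin n) k K) (A : Matrix (Fin N) (Fin N) K)
    (p q : Fin N × Fin n) :
    trm ω A p q = Algebra.trace k K (ω p.2 * ω q.2 * A p.1 q.1) := rfl

lemma trm_bil (ω : Module.Basis (Fin n) k K) (A : Matrix (Fin N) (Fin N) K)
    (y z : Fin N → K) :
    cv ω y ⬝ᵥ (trm ω A *ᵥ cv ω z) = Algebra.trace k K (y ⬝ᵥ (A *ᵥ z)) := by
  have hz : ∀ (x : K), x = ∑ a, ω.repr x a • ω a := fun x => (ω.sum_repr x).symm
  have h1 : ∀ i a, (trm ω A *ᵥ cv ω z) (i, a) =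
      Algebra.trace k K (ω a * (A *ᵥ z) i) := by
    intro i a
    rw [Matrix.mulVec, dotProduct, Fintype.sum_prod_type, Matrix.mulVec, dotProduct,
      Finset.mul_sum, map_sum]
    apply Finset.sum_congr rfl
    intro j _
    conv_rhs => rw [hz (z j), Finset.mul_sum, Finset.mul_sum, map_sum]
    apply Finset.sum_congr rfl
    intro b _
    rw [trm_apply]
    have h3 : ω a * (A i j * ω.repr (z j) b • ω b) =
        ω.repr (z j) b • (ω a * ω b * A i j) := by
      rw [Algebra.smul_def, Algebra.smul_def]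
      ring
    rw [h3, map_smul, smul_eq_mul, mul_comm]
    rfl
  rw [dotProduct, Fintype.sum_prod_type, dotProduct, map_sum]
  apply Finset.sum_congr rfl
  intro i _
  conv_rhs => rw [hz (y i), Finset.sum_mul, map_sum]
  apply Finset.sum_congr rfl
  intro a _
  rw [h1, smul_mul_assoc, map_smul, smul_eq_mul]
  rfl

lemma trm_fac (ω : Module.Basis (Fin n) k K) (A : Matrix (Fin N) (Fin N) K) :
    trm ω A = Matrix.kroneckerMap (· * ·) (1 : Matrix (Fin N) (Fin N) k) (trd ω) *
      lmm ω A := by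
  ext ⟨i, a⟩ ⟨j, b⟩
  rw [Matrix.mul_apply, Fintype.sum_prod_type, Finset.sum_eq_single i]
  · simp only [Matrix.kroneckerMap_apply, Matrix.one_apply_eq, one_mul]
    rw [trm_apply]
    change Algebra.trace k K (ω a * ω b * A i j) = _
    have h1 : ω a * ω b * A i j = ω a * ∑ l, ω.repr (A i j * ω b) l • ω l := by
      rw [ω.sum_repr]
      ring
    rw [h1, Finset.mul_sum, map_sum]
    apply Finset.sum_congr rfl
    intro l _
    rw [mul_smul_comm, map_smul, smul_eq_mul, mul_comm]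
    have h2 : lmm ω A (i, l) (j, b) = ω.repr (A i j * ω b) l := by
      change Algebra.leftMulMatrix ω (A i j) l b = _
      rw [Algebra.leftMulMatrix_eq_repr_mul]
    rw [h2]
    rfl
  · intro i' _ hi'
    apply Finset.sum_eq_zero
    intro l _
    rw [Matrix.kroneckerMap_apply, Matrix.one_apply_ne (Ne.symm hi'), zero_mul, zero_mul]
  · simp

lemma lmm_det (ω : Module.Basis (Fin n) k K) (g : Matrix (Fin N) (Fin N) K) :
    (lmm ω g).det = Algebra.norm k g.det := by
  classical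
  set f : K →+* Matrix (Fin n) (Fin n) k := (Algebra.leftMulMatrix ω).toRingHom with hf
  have h1 : lmm ω g = (g.map f).comp (Fin N) (Fin N) (Fin n) (Fin n) k := by
    ext ⟨i, a⟩ ⟨j, b⟩
    rfl
  rw [h1, ← Matrix.det_det, Algebra.norm_eq_matrix_det ω]
  rfl

end

theorem trf : TRFStmt := by
  intro k K _ _ _ _ _ n N ω
  refine ⟨?_, ?_, lmm_det ω, ?_, ?_, trm_bil ω, lmm_mulVec ω, lmm_mul ω, cv_surj ω⟩
  · intro A g
    have h1 : ∀ u v : Fin N × Fin n → k,
        u ⬝ᵥ (((lmm ω g)ᵀ * trm ω A * lmm ω g) *ᵥ v) = u ⬝ᵥ (trm ω (gᵀ * A * g) *ᵥ v) := by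
      intro u v
      obtain ⟨y, rfl⟩ := cv_surj ω u
      obtain ⟨z, rfl⟩ := cv_surj ω v
      rw [trm_bil, ← Matrix.mulVec_mulVec, ← Matrix.mulVec_mulVec, lmm_mulVec,
        Matrix.dotProduct_mulVec, Matrix.vecMul_transpose, lmm_mulVec, trm_bil,
        ← Matrix.mulVec_mulVec, ← Matrix.mulVec_mulVec, Matrix.dotProduct_mulVec y,
        Matrix.vecMul_transpose]
    ext p q
    have h2 := h1 (Pi.single p 1) (Pi.single q 1)
    simpa using h2
  · intro A
    rw [trm_fac, Matrix.det_mul, Matrix.det_kronecker, Matrix.det_one, one_pow, one_mul,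
      Fintype.card_fin, lmm_det]
  · have h := Algebra.discr_not_zero_of_basis k ω
    rw [Algebra.discr_def] at h
    exact h
  · intro A hA
    ext p q
    rw [Matrix.transpose_apply, trm_apply, trm_apply]
    have h1 : A q.1 p.1 = A p.1 q.1 := by
      conv_rhs => rw [← hA]
      rfl
    rw [h1, mul_comm (ω q.2)]

end Pool.T1
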