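import Pool.Agent.H29.T1.ZS

/-!
# T1T: the row ZUNC (completions at unramified primes)
-/

set_option autoImplicit false

namespace Pool.T1

open Polynomial Pool.HYP Pool.TOW Pool.AVS IsDedekindDomain

section H3

variable {R : Type} [CommRing R] [IsDedekindDomain R] {K : Type} [Field K] [Algebra R K]
  [IsFractionRing R K]

lemma vP_mem {P : HeightOneSpectrum R} {x : K} : x ∈ vP K P ↔ P.valuation K x ≤ 1 := Iff.rfl

/-- The valuation of a uniformizer. -/
lemma vP_unif {P : HeightOneSpectrum R} {ϖ : R} (h1 : ϖ ∈ P.asIdeal) (h2 : ϖ ∉ P.asIdeal ^ 2) :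
    P.valuation K (algebraMap R K ϖ) = WithZero.exp (-1 : ℤ) := by
  rw [HeightOneSpectrum.valuation_of_algebraMap]
  have h0 : ϖ ≠ 0 := by
    rintro rfl
    exact h2 (Ideal.zero_mem _)
  have h3 : P.intValuation ϖ ≤ WithZero.exp (-(1 : ℕ) : ℤ) := by
    rw [HeightOneSpectrum.intValuation_le_pow_iff_mem, pow_one]
    exact h1
  have h4 : ¬ P.intValuation ϖ ≤ WithZero.exp (-(2 : ℕ) : ℤ) := by
    rw [HeightOneSpectrum.intValuation_le_pow_iff_mem]
    exact h2
  have h5 : P.intValuation ϖ ≠ 0 := P.intValuation_ne_zero ϖ h0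
  obtain ⟨n, hn⟩ : ∃ n : ℤ, P.intValuation ϖ = WithZero.exp n :=
    ⟨WithZero.log (P.intValuation ϖ), (WithZero.exp_log h5).symm⟩
  rw [hn] at h3 h4 ⊢
  rw [WithZero.exp_le_exp] at h3 h4
  congr 1
  push_cast at h3 h4
  omega

/-- A nonunit is divisible by the uniformizer. -/
lemma vP_div {P : HeightOneSpectrum R} {ϖ : R} (h1 : ϖ ∈ P.asIdeal) (h2 : ϖ ∉ P.asIdeal ^ 2)
    {x : K} (hx : x⁻¹ ∉ vP K P) : x / algebraMap R K ϖ ∈ vP K P := by
  rw [vP_mem, map_div₀, vP_unif h1 h2]
  by_cases hx0 : x = 0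
  · subst hx0
    simp
  have h3 : P.valuation K x ≠ 0 := (Valuation.ne_zero_iff _).2 hx0
  rw [vP_mem, map_inv₀] at hx
  obtain ⟨n, hn⟩ : ∃ n : ℤ, P.valuation K x = WithZero.exp n :=
    ⟨WithZero.log (P.valuation K x), (WithZero.exp_log h3).symm⟩
  rw [hn] at hx ⊢
  rw [← WithZero.exp_neg, ← WithZero.exp_zero, WithZero.exp_le_exp] at hx
  rw [← WithZero.exp_sub, ← WithZero.exp_zero, WithZero.exp_le_exp]
  omega

lemma vP_alg (P : HeightOneSpectrum R) (a : R) : algebraMap R K a ∈ vP K P := by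
  rw [vP_mem]
  exact P.valuation_le_one a

lemma vP_div_alg {P : HeightOneSpectrum R} {ϖ : R} (h1 : ϖ ∈ P.asIdeal)
    (h2 : ϖ ∉ P.asIdeal ^ 2) (a : R) :
    algebraMap R K a / algebraMap R K ϖ ∈ vP K P ↔ a ∈ P.asIdeal := by
  constructor
  · intro h
    rw [vP_mem, map_div₀, vP_unif h1 h2] at h
    rw [← HeightOneSpectrum.valuation_lt_one_iff_mem (K := K)]
    have h3 : P.valuation K (algebraMap R K a) ≤ WithZero.exp (-1 : ℤ) := by
      rwa [div_le_iff₀ (by simp), one_mul] at h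
    refine lt_of_le_of_lt h3 ?_
    rw [← WithZero.exp_zero, WithZero.exp_lt_exp]
    norm_num
  · intro h
    by_cases ha0 : a = 0
    · subst ha0
      rw [map_zero, zero_div]
      exact zero_mem _
    apply vP_div h1 h2
    rw [vP_mem, map_inv₀]
    rw [← HeightOneSpectrum.valuation_lt_one_iff_mem (K := K)] at h
    have h3 : P.valuation K (algebraMap R K a) ≠ 0 := by
      rw [Valuation.ne_zero_iff, Ne, map_eq_zero_iff _ (IsFractionRing.injective R K)]
      exact ha0
    rw [not_le]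
    exact (one_lt_inv₀ (zero_lt_iff.2 h3)).2 h

end H3

theorem zunc (hZLOC : ZLOCStmt) (_hZVAL : ZVALStmt) : ZUNCStmt := by
  intro R _ _ K _ _ _ O π hGR P ϖ h1 h2 E _ _ L _ O' ι hA hU
  obtain ⟨hc, hw⟩ := hA
  have hϖ0 : algebraMap R K ϖ ≠ 0 := by
    rw [Ne, map_eq_zero_iff _ (IsFractionRing.injective R K)]
    rintro rfl
    exact h2 (Ideal.zero_mem _)
  have hmem : ∀ x : K, ι (algebraMap K E x) ∈ O' ↔ x ∈ vP K P := by
    intro x
    rw [← hw]
    rfl
  have h2E : (2 : E) ≠ 0 := by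
    intro h
    apply hGR.two
    have h3 : algebraMap K E 2 = 0 := by rw [map_ofNat]; exact h
    exact (map_eq_zero_iff _ (algebraMap K E).injective).1 h3
  have hp : ∃ p : ℕ, p.Prime ∧ CharP E p := by
    obtain ⟨p, hp, hK⟩ := hGR.char
    exact ⟨p, hp, charP_of_injective_algebraMap (algebraMap K E).injective p⟩
  refine ⟨?_, ?_, ?_⟩
  · apply hZLOC E h2E hp L O' ι hc
    · exact (hmem _).2 (vP_alg P ϖ)
    · intro h
      have h6 : (ι.comp (algebraMap K E)) (algebraMap R K ϖ)⁻¹ ∈ O' := by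
        rw [map_inv₀]
        exact h
      have h3 : P.valuation K (algebraMap R K ϖ)⁻¹ ≤ 1 := (hmem _).1 h6
      rw [map_inv₀ (P.valuation K), vP_unif h1 h2, ← WithZero.exp_neg, ← WithZero.exp_zero,
        WithZero.exp_le_exp] at h3
      omega
    · intro z hz hzi
      obtain ⟨x, hx, hxi, hd⟩ := hU L O' ι ⟨hc, hw⟩ z hz hzi
      by_cases hx0 : x = 0
      · exfalso
        apply hxi
        rw [hx0, inv_zero]
        exact zero_mem _
      have h3 : ι (algebraMap K E x) ≠ 0 := by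
        rw [Ne, map_eq_zero_iff _ ι.injective, map_eq_zero_iff _ (algebraMap K E).injective]
        exact hx0
      have h4 : ι (algebraMap K E (algebraMap R K ϖ)) ≠ 0 := by
        rw [Ne, map_eq_zero_iff _ ι.injective, map_eq_zero_iff _ (algebraMap K E).injective]
        exact hϖ0
      have h5 : z / ι (algebraMap K E (algebraMap R K ϖ)) =
          z / ι (algebraMap K E x) * ι (algebraMap K E (x / algebraMap R K ϖ)) := by
        rw [map_div₀, map_div₀]
        field_simp
      change z / ι (algebraMap K E (algebraMap R K ϖ)) ∈ O'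
      rw [h5]
      exact mul_mem hd ((hmem _).2 (vP_div h1 h2 hxi))
  · intro a
    exact (hmem _).2 (vP_alg P a)
  · intro a
    have h3 : (ι.comp (algebraMap K E)) (algebraMap R K a) /
        (ι.comp (algebraMap K E)) (algebraMap R K ϖ) =
        ι (algebraMap K E (algebraMap R K a / algebraMap R K ϖ)) := by
      rw [map_div₀, map_div₀]
      rfl
    rw [h3, hmem, vP_div_alg h1 h2]

end Pool.T1
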